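import Pool.Agent.R893.TP2.Stm
import Pool.Agent.H254R3.IN.Chars
import Pool.Agent.H254R3.IN.Red

/-!
# TP2-BLK: the external product of two blocks is a block
-/

open scoped BigOperators Classical

noncomputable section

namespace Pool.Agent.R715.TP2

open Pool.Agent.H254R3.IN Pool.Agent.R893.TP2

theorem omega_one {G : Type} [Group G] [Finite G] {ψ : G → ℂ} (h : IsIrr ψ) : omega ψ 1 = 1 := by
  have h1 : Nat.card {y : G // IsConj 1 y} = 1 := by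
    rw [Nat.card_eq_one_iff_unique]
    refine ⟨⟨fun a b => ?_⟩, ⟨⟨1, IsConj.refl 1⟩⟩⟩
    have ha := isConj_one_right.1 a.2
    have hb := isConj_one_right.1 b.2
    exact Subtype.ext (ha.trans hb.symm)
  unfold omega
  rw [h1, Nat.cast_one, one_mul, div_self h.one_ne]

theorem blk (hirr : S_IRR) (hirrc : S_IRRC) (hom : S_OM) : S_BLK := by
  intro G H _ _ _ _ O B C hB hC
  obtain ⟨χ0, hχ0, rfl⟩ := hB
  obtain ⟨ψ0, hψ0, rfl⟩ := hC
  refine ⟨ext χ0 ψ0, hirr G H χ0 ψ0 hχ0 hψ0, ?_⟩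
  ext φ
  constructor
  · rintro ⟨χ, ⟨hχ, h1⟩, ψ, ⟨hψ, h2⟩, rfl⟩
    refine ⟨hirr G H χ ψ hχ hψ, fun z => ?_⟩
    obtain ⟨x, y⟩ := z
    have m1 := hχ.omega_mem O x
    have m2 := hψ.omega_mem O y
    have m3 := hχ0.omega_mem O x
    have m4 := hψ0.omega_mem O y
    rw [hom, hom, ← red_eq_iff (O.mul_mem _ _ m1 m2) (O.mul_mem _ _ m3 m4), red_mul m1 m2,
      red_mul m3 m4, (red_eq_iff m1 m3).2 (h1 x), (red_eq_iff m2 m4).2 (h2 y)]
  · rintro ⟨hφ, h⟩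
    obtain ⟨χ, ψ, hχ, hψ, rfl⟩ := hirrc G H φ hφ
    refine ⟨χ, ⟨hχ, fun x => ?_⟩, ψ, ⟨hψ, fun y => ?_⟩, rfl⟩
    · have h1 := h (x, 1)
      rw [hom, hom, omega_one hψ, omega_one hψ0, mul_one, mul_one] at h1
      exact h1
    · have h1 := h (1, y)
      rw [hom, hom, omega_one hχ, omega_one hχ0, one_mul, one_mul] at h1
      exact h1

end Pool.Agent.R715.TP2
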